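import Mathlib
import Pool.Agent.H.MP_8474a0_co.B

namespace Pool.Agent.Results.MP_8474a0_co.No
open Finset Pool.Agent.H.Mim
open Classical

variable {V : Type} [Fintype V]

/-- `|∂A|`: the number of edges with one endpoint in `A` and the other outside, each such edge
being recorded as the pair (endpoint in `A`, endpoint outside `A`). -/
noncomputable def bdry (G : SimpleGraph V) (A : Finset V) : ℕ :=
  (univ.filter fun p : V × V => G.Adj p.1 p.2 ∧ p.1 ∈ A ∧ p.2 ∉ A).card

/-- The `i`-th part of the partition of `V` given by a map `c : V → Fin n`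
(a partition into `n` non-empty sets is a surjective `c`). -/
noncomputable def part {n : ℕ} (c : V → Fin n) (i : Fin n) : Finset V :=
  univ.filter fun v => c v = i

/-- `max_i |∂A_i| / |A_i|`. -/
noncomputable def ratio (G : SimpleGraph V) {n : ℕ} (c : V → Fin n) : ℝ :=
  ⨆ i, (bdry G (part c i) : ℝ) / (part c i).card

/-- The `n`-way isoperimetric constant. -/
noncomputable def iso (G : SimpleGraph V) (n : ℕ) : ℝ :=
  ⨅ c : {c : V → Fin n // Function.Surjective c}, ratio G c.1

/-- `c` is a realizer of `h_n`. -/
def Realizer (G : SimpleGraph V) {n : ℕ} (c : V → Fin n) : Prop :=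
  Function.Surjective c ∧ ratio G c = iso G n

/-- `c` is a system of imprimitivity of size `n` for `Aut(G)`. -/
def Imprimitivity (G : SimpleGraph V) {n : ℕ} (c : V → Fin n) : Prop :=
  Function.Surjective c ∧ ∀ (g : G ≃g G) (i : Fin n), ∃ j, (part c i).image g = part c j

lemma K_eq {n : ℕ} (c : V → Fin n) (i : Fin n) : K (fun v => c v = i) = (part c i).card := by
  rw [K, part, card_filter]
  push_cast
  refine sum_congr rfl fun v _ => ?_
  unfold ind; split_ifs <;> rfl

lemma bd_eq (G : SimpleGraph V) {n : ℕ} (c : V → Fin n) (i : Fin n) :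
    bd (fun u v => ind (G.Adj u v)) (fun v => c v = i) = bdry G (part c i) := by
  simp only [bd, S, ← ind_and, bdry, part, mem_filter, mem_univ, true_and]
  rw [card_filter, Fintype.sum_prod_type]
  push_cast
  refine sum_congr rfl fun u _ => sum_congr rfl fun v _ => ?_
  unfold ind; split_ifs <;> rfl

lemma le_ratio (G : SimpleGraph V) {n : ℕ} (c : V → Fin n) (i : Fin n) :
    (bdry G (part c i) : ℝ) / (part c i).card ≤ ratio G c :=
  le_ciSup (f := fun i => (bdry G (part c i) : ℝ) / (part c i).card) (Set.finite_range _).bddAbove i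

lemma iso_le (G : SimpleGraph V) {n : ℕ} (c : V → Fin n) (hc : Function.Surjective c) :
    iso G n ≤ ratio G c :=
  ciInf_le (f := fun c : {c : V → Fin n // Function.Surjective c} => ratio G c.1)
    (Set.finite_range _).bddBelow ⟨c, hc⟩

theorem result (n : ℕ) (hn : 2 ≤ n) (V : Type) [Fintype V] (G : SimpleGraph V)
    (hV : n + 1 ≤ Fintype.card V) (htr : ∀ u v : V, ∃ g : G ≃g G, g u = v)
    (hgap : iso G (n + 1) > 2 * (n + 1) * iso G n) :
    ∃ c : V → Fin n, Realizer G c ∧ Imprimitivity G c := by
  haveI : MulAction.IsPretransitive (G ≃g G) V := ⟨htr⟩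
  haveI : Finite (G ≃g G) := Finite.of_injective (fun g : G ≃g G => (g : V → V))
    DFunLike.coe_injective
  haveI : Fintype (G ≃g G) := Fintype.ofFinite _
  haveI : Nonempty (Fin n) := ⟨⟨0, by omega⟩⟩
  haveI : Nonempty {c : V → Fin n // Function.Surjective c} := by
    obtain ⟨e⟩ := Function.Embedding.nonempty_of_card_le (α := Fin n) (β := V) (by simp; omega)
    exact ⟨⟨Function.invFun e, Function.invFun_surjective e.injective⟩⟩
  obtain ⟨⟨a, ha⟩, hmin⟩ := exists_eq_ciInf_of_finite
    (f := fun c : {c : V → Fin n // Function.Surjective c} => ratio G c.1)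
  have hmin' : ratio G a = iso G n := hmin
  have hpos : ∀ {m : ℕ} (c : V → Fin m), Function.Surjective c → ∀ i, 0 < K (fun v => c v = i) :=
    fun c hc i => by obtain ⟨v, hv⟩ := hc i; exact K_pos (p := fun v => c v = i) hv
  have X : Hyp (G ≃g G) (fun u v => ind (G.Adj u v)) n (iso G n) (iso G (n + 1)) a :=
    { w0 := fun _ _ => ind_nonneg _
      ws := fun u v => ind_congr (G.adj_comm u v)
      wi := fun g u v => ind_congr g.map_rel_iff
      n2 := hn
      h0 := by
        rw [← hmin']
        exact le_trans (div_nonneg (Nat.cast_nonneg _) (Nat.cast_nonneg _))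
          (le_ratio G a (Classical.arbitrary _))
      gap := hgap
      apos := hpos a ha
      abd := fun i => by
        have := (le_ratio G a i).trans hmin'.le
        rw [bd_eq, ← div_le_iff₀ (hpos a ha i), K_eq]; exact this
      split := fun c B hB hc => by
        let c' : V → Fin (n + 1) := fun v => if B v then Fin.last n else (c v).castSucc
        have e1 : (fun v => c' v = Fin.last n) = B := by
          funext v; apply propext
          by_cases h : B v
          · exact ⟨fun _ => h, fun _ => if_pos h⟩
          · exact ⟨fun e => absurd ((if_neg h).symm.trans e) (Fin.castSucc_lt_last _).ne,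
              fun h' => absurd h' h⟩
        have e2 : ∀ i : Fin n, (fun v => c' v = i.castSucc) = fun v => c v = i ∧ ¬ B v := by
          intro i; funext v; apply propext
          by_cases h : B v
          · exact ⟨fun e => absurd ((if_pos h).symm.trans e) (Fin.castSucc_lt_last _).ne',
              fun h' => absurd h h'.2⟩
          · exact ⟨fun e => ⟨Fin.castSucc_injective _ ((if_neg h).symm.trans e), h⟩,
              fun h' => (if_neg h).trans (congrArg _ h'.1)⟩
        have hs : Function.Surjective c' := by
          intro j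
          refine Fin.lastCases ?_ (fun i => ?_) j
          · obtain ⟨v, hv⟩ := exists_of_K_pos hB
            exact ⟨v, (congrFun e1 v).mpr hv⟩
          · obtain ⟨v, hv⟩ := exists_of_K_pos (hc i)
            exact ⟨v, (congrFun (e2 i) v).mpr hv⟩
        obtain ⟨j, hj⟩ := exists_eq_ciSup_of_finite
          (f := fun i => (bdry G (part c' i) : ℝ) / (part c' i).card)
        have h1 : iso G (n + 1) ≤ (bdry G (part c' j) : ℝ) / (part c' j).card :=
          (iso_le G c' hs).trans hj.ge
        rw [← K_eq, ← bd_eq, le_div_iff₀ (hpos c' hs j)] at h1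
        revert h1
        refine Fin.lastCases (fun h1 => ?_) (fun i h1 => ?_) j
        · left; rwa [e1] at h1
        · right; exact ⟨i, by rwa [e2] at h1⟩ }
  obtain ⟨b, hb, hσ, hbd⟩ := X.main
  refine ⟨b, ⟨hb, le_antisymm (ciSup_le fun i => ?_) (iso_le G b hb)⟩, hb, fun g i => ?_⟩
  · rw [← K_eq, ← bd_eq, div_le_iff₀ (hpos b hb i)]; exact hbd i
  · obtain ⟨σ, hinj, hσ⟩ := hσ g
    refine ⟨σ i, ?_⟩
    ext v
    simp only [part, mem_image, mem_filter, mem_univ, true_and]
    constructor
    · rintro ⟨u, rfl, rfl⟩; exact hσ u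
    · intro hv
      obtain ⟨u, rfl⟩ := g.surjective v
      exact ⟨u, hinj ((hσ u).symm.trans hv), rfl⟩

end Pool.Agent.Results.MP_8474a0_co.No
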